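import Pool.Agent.Helper35.HC.StA

set_option autoImplicit false

namespace Helper22.HC

open Helper35.HC Helper35.HSF Helper35.MS Helper35.PI Helper35.PI2 Helper32.CL
open Module

/-- adding an orthogonal line -/
private theorem trv_add {N : ℕ} (S : Submodule ℝ (EE N)) (u : EE N) (hu : u ∈ Sᗮ) (h0 : u ≠ 0) :
    finrank ℝ (S ⊔ Submodule.span ℝ {u} : Submodule ℝ (EE N)) = finrank ℝ S + 1 := by
  have h := Submodule.finrank_sup_add_finrank_inf_eq S (Submodule.span ℝ {u})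
  have hinf : S ⊓ Submodule.span ℝ {u} = ⊥ := by
    rw [Submodule.eq_bot_iff]
    rintro v ⟨hv, hv'⟩
    obtain ⟨c, rfl⟩ := Submodule.mem_span_singleton.1 hv'
    have h1 : (inner ℝ (c • u) u : ℝ) = 0 := (Submodule.mem_orthogonal S u).1 hu _ hv
    rw [real_inner_smul_left] at h1
    rcases mul_eq_zero.1 h1 with h1 | h1
    · rw [h1, zero_smul]
    · exact absurd (inner_self_eq_zero.1 h1) h0
  rw [hinf, finrank_bot, finrank_span_singleton h0, add_zero] at h
  exact h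

/-- the orthogonal line of a hyperplane -/
private theorem trv_one {N : ℕ} (S : Submodule ℝ (EE N)) (hS : finrank ℝ S + 1 = N) :
    ∃ η : EE N, ‖η‖ = 1 ∧ η ∈ Sᗮ ∧ ∀ B ∈ Sᗮ, B = (inner ℝ η B : ℝ) • η := by
  have h := Submodule.finrank_add_finrank_orthogonal S
  rw [finrank_euclideanSpace_fin] at h
  have h1 : finrank ℝ Sᗮ = 1 := by omega
  obtain ⟨v, hv0, hv⟩ := finrank_eq_one_iff'.1 h1
  have hv0' : (v : EE N) ≠ 0 := fun h => hv0 (Subtype.ext h)
  have hn : ‖(v : EE N)‖ ≠ 0 := norm_ne_zero_iff.2 hv0'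
  have hn1 : ‖(‖(v : EE N)‖⁻¹ • (v : EE N))‖ = 1 := by
    rw [norm_smul, norm_inv, norm_norm, inv_mul_cancel₀ hn]
  refine ⟨‖(v : EE N)‖⁻¹ • (v : EE N), hn1, Submodule.smul_mem _ _ v.2, ?_⟩
  intro B hB
  obtain ⟨c, hc⟩ := hv ⟨B, hB⟩
  have hc' : c • (v : EE N) = B := congrArg Subtype.val hc
  obtain ⟨η, hη⟩ : ∃ η : EE N, η = ‖(v : EE N)‖⁻¹ • (v : EE N) := ⟨_, rfl⟩
  rw [← hη] at hn1 ⊢
  have h2 : B = (c * ‖(v : EE N)‖) • η := by
    rw [hη, smul_smul, mul_assoc, mul_inv_cancel₀ hn, mul_one, hc']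
  have h3 : (inner ℝ η B : ℝ) = c * ‖(v : EE N)‖ := by
    rw [h2, real_inner_smul_right, real_inner_self_eq_norm_sq, hn1]
    ring
  rw [h3]
  exact h2

/-- the normal plane -/
private theorem trv_frame (n : ℕ) (L : EE n →ₗᵢ[ℝ] EE (n + 3)) (x₀ : EE (n + 3)) (hx : x₀ ≠ 0)
    (hL : ∀ v, (inner ℝ (L v) x₀ : ℝ) = 0) :
    (∃ v : EE (n + 3), v ≠ 0 ∧ (∀ y, (inner ℝ (L y) v : ℝ) = 0) ∧ (inner ℝ x₀ v : ℝ) = 0) ∧
    ∀ ξ : EE (n + 3), ‖ξ‖ = 1 → (∀ y, (inner ℝ (L y) ξ : ℝ) = 0) → (inner ℝ x₀ ξ : ℝ) = 0 →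
      ∃ η : EE (n + 3), ‖η‖ = 1 ∧ (∀ y, (inner ℝ (L y) η : ℝ) = 0) ∧ (inner ℝ x₀ η : ℝ) = 0 ∧
        (inner ℝ ξ η : ℝ) = 0 ∧ ∀ B : EE (n + 3), (∀ y, (inner ℝ (L y) B : ℝ) = 0) →
          (inner ℝ x₀ B : ℝ) = 0 → B = (inner ℝ ξ B : ℝ) • ξ + (inner ℝ η B : ℝ) • η := by
  obtain ⟨S0, hS0⟩ : ∃ S0 : Submodule ℝ (EE (n + 3)), S0 = LinearMap.range L.toLinearMap :=
    ⟨_, rfl⟩
  have hmem0 : ∀ v : EE (n + 3), v ∈ S0ᗮ ↔ ∀ y, (inner ℝ (L y) v : ℝ) = 0 := by
    intro v
    rw [Submodule.mem_orthogonal, hS0]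
    constructor
    · intro h y
      exact h _ ⟨y, rfl⟩
    · rintro h _ ⟨y, rfl⟩
      exact h y
  have hf0 : finrank ℝ S0 = n := by
    rw [hS0, LinearMap.finrank_range_of_inj L.injective, finrank_euclideanSpace_fin]
  obtain ⟨S1, hS1⟩ : ∃ S1 : Submodule ℝ (EE (n + 3)), S1 = S0 ⊔ Submodule.span ℝ {x₀} :=
    ⟨_, rfl⟩
  have hf1 : finrank ℝ S1 = n + 1 := by
    rw [hS1, trv_add S0 x₀ ((hmem0 x₀).2 hL) hx, hf0]
  have hmem1 : ∀ v : EE (n + 3), v ∈ S1ᗮ ↔
      (∀ y, (inner ℝ (L y) v : ℝ) = 0) ∧ (inner ℝ x₀ v : ℝ) = 0 := by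
    intro v
    rw [hS1, ← Submodule.inf_orthogonal, Submodule.mem_inf, hmem0,
      Submodule.mem_orthogonal_singleton_iff_inner_right]
  constructor
  · have h := Submodule.finrank_add_finrank_orthogonal S1
    rw [finrank_euclideanSpace_fin, hf1] at h
    have h2 : S1ᗮ ≠ ⊥ := by
      intro hb
      rw [hb, finrank_bot] at h
      omega
    obtain ⟨v, hv, hv0⟩ := Submodule.exists_mem_ne_zero_of_ne_bot h2
    exact ⟨v, hv0, (hmem1 v).1 hv⟩
  · intro ξ hξ hξL hξx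
    have hξ0 : ξ ≠ 0 := by
      intro h
      rw [h, norm_zero] at hξ
      exact zero_ne_one hξ
    obtain ⟨S2, hS2⟩ : ∃ S2 : Submodule ℝ (EE (n + 3)), S2 = S1 ⊔ Submodule.span ℝ {ξ} :=
      ⟨_, rfl⟩
    have hf2 : finrank ℝ S2 = n + 2 := by
      rw [hS2, trv_add S1 ξ ((hmem1 ξ).2 ⟨hξL, hξx⟩) hξ0, hf1]
    have hmem2 : ∀ v : EE (n + 3), v ∈ S2ᗮ ↔
        ((∀ y, (inner ℝ (L y) v : ℝ) = 0) ∧ (inner ℝ x₀ v : ℝ) = 0) ∧ (inner ℝ ξ v : ℝ) = 0 := by
      intro v
      rw [hS2, ← Submodule.inf_orthogonal, Submodule.mem_inf, hmem1,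
        Submodule.mem_orthogonal_singleton_iff_inner_right]
    obtain ⟨η, hη1, hη, hηB⟩ := trv_one S2 (by rw [hf2])
    obtain ⟨⟨h1, h2⟩, h3⟩ := (hmem2 η).1 hη
    refine ⟨η, hη1, h1, h2, h3, ?_⟩
    intro B hBL hBx
    have hB' : B - (inner ℝ ξ B : ℝ) • ξ ∈ S2ᗮ := by
      rw [hmem2]
      refine ⟨⟨?_, ?_⟩, ?_⟩
      · intro y
        rw [inner_sub_right, real_inner_smul_right, hBL y, hξL y]
        ring
      · rw [inner_sub_right, real_inner_smul_right, hBx, hξx]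
        ring
      · rw [inner_sub_right, real_inner_smul_right, real_inner_self_eq_norm_sq, hξ]
        ring
    have h4 := hηB _ hB'
    have h5 : (inner ℝ η (B - (inner ℝ ξ B : ℝ) • ξ) : ℝ) = inner ℝ η B := by
      rw [inner_sub_right, real_inner_smul_right, real_inner_comm ξ η, h3]
      ring
    rw [h5] at h4
    rw [← h4]
    abel

/-- the value of `A(c,d)` -/
private theorem trv_bilV {n N : ℕ} {A : Fin n → Fin n → EE N} {K b : Fin n → Fin n → ℝ} {r : ℝ}
    {ξ η x₀ : EE N} (h : KB A K b r ξ η x₀) (c d : Fin n → ℝ) :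
    bilV A c d = bil K c d • ξ + bil b c d • η - (r * ∑ i, c i * d i) • x₀ := by
  unfold bilV bil
  rw [h.eq]
  simp only [smul_sub, smul_add, Finset.sum_sub_distrib, Finset.sum_add_distrib, smul_smul,
    Finset.sum_smul]
  congr 1
  · congr 1
    · refine Finset.sum_congr rfl fun i _ => Finset.sum_congr rfl fun j _ => ?_
      rw [mul_comm]
    · refine Finset.sum_congr rfl fun i _ => Finset.sum_congr rfl fun j _ => ?_
      rw [mul_comm]
  · rw [Finset.mul_sum, Finset.sum_smul]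
    refine Finset.sum_congr rfl fun i _ => ?_
    rw [Finset.sum_eq_single i]
    · rw [if_pos rfl, mul_comm]
    · intro j _ hj
      rw [if_neg (Ne.symm hj), mul_zero, zero_smul]
    · intro hi
      exact absurd (Finset.mem_univ i) hi

private theorem trv_norm {N : ℕ} {ξ η : EE N} (hξ : ‖ξ‖ = 1) (hη : ‖η‖ = 1)
    (h : (inner ℝ ξ η : ℝ) = 0) (a b : ℝ) : ‖a • ξ + b • η‖ ^ 2 = a ^ 2 + b ^ 2 := by
  rw [norm_add_sq_real, norm_smul, norm_smul, hξ, hη, real_inner_smul_left, real_inner_smul_right,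
    h, mul_one, mul_one, Real.norm_eq_abs, Real.norm_eq_abs, sq_abs, sq_abs]
  ring

theorem hTRV : StTRV := by
  intro n _ A r L x₀ hA hr hx hL hAL hAx
  have hx0 : x₀ ≠ 0 := by
    intro h
    rw [h, norm_zero] at hx
    have : (0 : ℝ) < 1 / r := by positivity
    rw [← hx] at this
    norm_num at this
  obtain ⟨⟨v, hv0, hvL, hvx⟩, hfr⟩ := trv_frame n L x₀ hx0 hL
  -- the matrices of a frame
  have hKB : ∀ ξ : EE (n + 3), ‖ξ‖ = 1 → (∀ y, (inner ℝ (L y) ξ : ℝ) = 0) →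
      (inner ℝ x₀ ξ : ℝ) = 0 → ∃ (K b : Fin n → Fin n → ℝ) (η : EE (n + 3)), SymS K ∧ SymS b ∧
        KB A K b r ξ η x₀ := by
    intro ξ hξ hξL hξx
    obtain ⟨η, hη, hηL, hηx, hξη, hB⟩ := hfr ξ hξ hξL hξx
    refine ⟨fun i j => inner ℝ ξ (A i j), fun i j => inner ℝ η (A i j), η, ?_, ?_, ?_⟩
    · intro i j
      change (inner ℝ ξ (A i j) : ℝ) = inner ℝ ξ (A j i)
      rw [hA i j]
    · intro i j
      change (inner ℝ η (A i j) : ℝ) = inner ℝ η (A j i)
      rw [hA i j]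
    · refine ⟨?_, hr, hx, hξ, hη, hξη, ?_, ?_⟩
      · funext i j
        have h1 := hB (A i j + (if i = j then r else 0) • x₀) (by
          intro y
          rw [inner_add_right, real_inner_smul_right, real_inner_comm, hAL i j y, hL y]
          ring) (by
          rw [inner_add_right, real_inner_smul_right, real_inner_comm, hAx i j,
            real_inner_self_eq_norm_sq, hx]
          by_cases hij : i = j
          · rw [if_pos hij, if_pos hij]
            field_simp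
            ring
          · rw [if_neg hij, if_neg hij]
            ring)
        have h2 : (inner ℝ ξ (A i j + (if i = j then r else 0) • x₀) : ℝ) =
            inner ℝ ξ (A i j) := by
          rw [inner_add_right, real_inner_smul_right, real_inner_comm x₀ ξ, hξx]
          ring
        have h3 : (inner ℝ η (A i j + (if i = j then r else 0) • x₀) : ℝ) =
            inner ℝ η (A i j) := by
          rw [inner_add_right, real_inner_smul_right, real_inner_comm x₀ η, hηx]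
          ring
        rw [h2, h3] at h1
        exact eq_sub_of_add_eq h1
      · rw [real_inner_comm]
        exact hξx
      · rw [real_inner_comm]
        exact hηx
  have hop : ∀ (K b : Fin n → Fin n → ℝ) (ξ η : EE (n + 3)), KB A K b r ξ η x₀ → ∀ c d, OP c d →
      bilV A c d = bil K c d • ξ + bil b c d • η := by
    intro K b ξ η hk c d hcd
    rw [trv_bilV hk c d, hcd.2.2, mul_zero, zero_smul, sub_zero]
  constructor
  · have hn : ‖v‖ ≠ 0 := norm_ne_zero_iff.2 hv0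
    have hn1 : ‖(‖v‖⁻¹ • v)‖ = 1 := by
      rw [norm_smul, norm_inv, norm_norm, inv_mul_cancel₀ hn]
    obtain ⟨K, b, η, hK, hb, hk⟩ := hKB (‖v‖⁻¹ • v) hn1
      (fun y => by rw [real_inner_smul_right, hvL y, mul_zero])
      (by rw [real_inner_smul_right, hvx, mul_zero])
    refine ⟨K, b, _, η, hK, hb, hk, ?_, ?_⟩
    · intro c d hcd
      rw [hop K b _ η hk c d hcd, trv_norm hk.nξ hk.nη hk.ξη]
    · intro c hc
      have hc' : ∑ i, c i * c i = 1 := by
        rw [← hc]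
        exact Finset.sum_congr rfl fun i _ => by ring
      rw [trv_bilV hk c c, hc', mul_one, sub_add_cancel, trv_norm hk.nξ hk.nη hk.ξη]
  · intro P Q μ hPQ hmax hμ0 hμ
    have hnW : ‖bilV A P Q‖ = μ := by
      have h1 : (0 : ℝ) ≤ ‖bilV A P Q‖ := norm_nonneg _
      nlinarith [sq_nonneg (‖bilV A P Q‖ - μ), sq_nonneg (‖bilV A P Q‖ + μ)]
    have hWL : ∀ y, (inner ℝ (L y) (bilV A P Q) : ℝ) = 0 := by
      intro y
      unfold bilV
      rw [inner_sum]
      refine Finset.sum_eq_zero fun i _ => ?_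
      rw [inner_sum]
      refine Finset.sum_eq_zero fun j _ => ?_
      rw [real_inner_smul_right, real_inner_comm, hAL i j y, mul_zero]
    have hWx : (inner ℝ x₀ (bilV A P Q) : ℝ) = 0 := by
      unfold bilV
      rw [inner_sum]
      have h1 : ∀ i ∈ Finset.univ, (inner ℝ x₀ (∑ j, (P i * Q j) • A i j) : ℝ) = -(P i * Q i) := by
        intro i _
        rw [inner_sum, Finset.sum_eq_single i]
        · rw [real_inner_smul_right, real_inner_comm, hAx i i, if_pos rfl]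
          ring
        · intro j _ hj
          rw [real_inner_smul_right, real_inner_comm, hAx i j, if_neg (Ne.symm hj)]
          ring
        · intro hi
          exact absurd (Finset.mem_univ i) hi
      rw [Finset.sum_congr rfl h1, Finset.sum_neg_distrib, hPQ.2.2, neg_zero]
    have hξ1 : ‖(μ⁻¹ • bilV A P Q)‖ = 1 := by
      rw [norm_smul, hnW, norm_inv, Real.norm_of_nonneg hμ0.le, inv_mul_cancel₀ hμ0.ne']
    obtain ⟨K, b, η, hK, hb, hk⟩ := hKB (μ⁻¹ • bilV A P Q) hξ1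
      (fun y => by rw [real_inner_smul_right, hWL y, mul_zero])
      (by rw [real_inner_smul_right, hWx, mul_zero])
    obtain ⟨ξ, hξ⟩ : ∃ ξ : EE (n + 3), ξ = μ⁻¹ • bilV A P Q := ⟨_, rfl⟩
    rw [← hξ] at hk
    have hW : bilV A P Q = μ • ξ := by
      rw [hξ, smul_smul, mul_inv_cancel₀ hμ0.ne', one_smul]
    have hexp := hop K b ξ η hk P Q hPQ
    rw [hW] at hexp
    have e1 : bil K P Q = μ := by
      have := congrArg (fun z => (inner ℝ ξ z : ℝ)) hexp
      simp only [inner_add_right, real_inner_smul_right, real_inner_self_eq_norm_sq, hk.nξ,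
        hk.ξη] at this
      linarith
    have e2 : bil b P Q = 0 := by
      have := congrArg (fun z => (inner ℝ η z : ℝ)) hexp
      have h3 : (inner ℝ η ξ : ℝ) = 0 := by rw [real_inner_comm]; exact hk.ξη
      simp only [inner_add_right, real_inner_smul_right, real_inner_self_eq_norm_sq, hk.nη,
        h3] at this
      linarith
    refine ⟨K, b, ξ, η, hk, hK, hb, hPQ, e1, e2, hμ0, ?_⟩
    intro c d hcd
    rw [← trv_norm hk.nξ hk.nη hk.ξη, ← hop K b ξ η hk c d hcd, hμ]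
    exact hmax c d hcd

end Helper22.HC
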